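import Pool.Agent.X186.IC.Clos

set_option autoImplicit false

/-!
Two perfect matchings whose intersection contains no odd edge-cut, in the cubic graphs of a class of
graphs closed under identification of vertices, edge-disjoint unions and sums along cuts with at most
three edges.

A finite graph, loops and parallel edges allowed, has the vertex set `V` and the edge set `E`; the
ends of the edge `e` are `s e` and `t e`. The class is the class `Closure` of
`Pool/Agent/Results/MP_40718a_co/CoverClosure.lean`.
-/

open Finset

namespace Pool.Agent.Results.MP_1dc4d0_co.CoverClosure

open Pool.Agent.X186.IC (six_closure)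
open Pool.Agent.Results.MP_40718a_co.CoverClosure (Closure)

/-- every vertex has degree three, where a loop counts twice -/
def IsCubic {V E : Type} [DecidableEq V] [Fintype E] (s t : E → V) : Prop :=
  ∀ v, ∑ e, ((if s e = v then 1 else 0) + (if t e = v then 1 else 0)) = 3

/-- the set of edges `M` is a perfect matching: every vertex has degree one in it -/
def IsPerfectMatching {V E : Type} [DecidableEq V] (s t : E → V) (M : Finset E) : Prop :=
  ∀ v, ∑ e ∈ M, ((if s e = v then 1 else 0) + (if t e = v then 1 else 0)) = 1

/-- the edge-cut of the set of vertices `X` -/
def cut {V E : Type} [DecidableEq V] [Fintype E] (s t : E → V) (X : Finset V) : Finset E :=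
  univ.filter fun e => ¬ (s e ∈ X ↔ t e ∈ X)

/-- Let `G` be a finite cubic graph of the class `Closure`: the least class that contains all unions of two
even subgraphs and all bridgeless graphs of treewidth at most four, of carving width at most five or
of cutwidth at most six, and that is closed under identification of vertices, edge-disjoint unions
(on a common set of vertices) and sums along cuts with at most three edges. Then there are two
perfect matchings whose intersection contains no odd edge-cut. -/
theorem result (V E : Type) [Fintype V] [DecidableEq V] [Fintype E] [DecidableEq E] (s t : E → V)
    (hc : IsCubic s t) (h : Closure s t) :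
    ∃ M₁ M₂ : Finset E, IsPerfectMatching s t M₁ ∧ IsPerfectMatching s t M₂ ∧
      ∀ X : Finset V, Odd (cut s t X).card → ¬ cut s t X ⊆ M₁ ∩ M₂ :=
  Pool.Agent.Y425.BF6.Cor.two_pm (six_closure h) hc

end Pool.Agent.Results.MP_1dc4d0_co.CoverClosure
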